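import Pool.Agent.REV.StmtsV3

open Set

namespace Pool.Agent.REV.H50

open Pool.Agent.REV

theorem tr3_q12 {a : ℝ} (ha : 0 ≤ a) : (a ^ 4) ^ (1 / 2 : ℝ) = a ^ 2 := by
  rw [← Real.rpow_natCast a 4, ← Real.rpow_mul ha, ← Real.rpow_natCast a 2]
  congr 1
  norm_num

theorem tr3_q34 {a : ℝ} (ha : 0 ≤ a) : (a ^ 4) ^ (3 / 4 : ℝ) = a ^ 3 := by
  rw [← Real.rpow_natCast a 4, ← Real.rpow_mul ha, ← Real.rpow_natCast a 3]
  congr 1
  norm_num

theorem tr3_fin {C c m z : ℝ} (hz : 0 ≤ z) (hc : c ≤ C) (h : m ≤ c * z) : m ≤ C * z :=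
  h.trans (mul_le_mul_of_nonneg_right hc hz)

theorem tr3_core {R K K2 m Y s t a e : ℝ} {p : ℕ} (hp : p = 2 ∨ p = 3) (hR : 0 ≤ R) (hK : 0 ≤ K)
    (hK2 : 0 ≤ K2) (hs : 0 < s) (ht : 0 < t) (ha : 0 < a) (hst : t ^ 4 = s ^ 4 + a ^ 4)
    (hY0 : 0 ≤ Y) (hYR : Y ≤ R) (hYK : Y ≤ K * t ^ 2) (hm1 : m ≤ Y ^ 2) (hm2 : m ≤ 2 * Y * e)
    (he1 : e ≤ K2 * (a / (s * t)) ^ 2 * min 1 (t ^ 4))
    (he2 : a ≤ s * t → e ≤ K2 * (a / (s * t)) ^ p * min 1 (t ^ 4)) :
    m ≤ (8 * R * K2 + 5 * R ^ 2 + 2 * K ^ 2 + 4 * K * K2) * (a ^ p * min 1 (s ^ 4)⁻¹) := by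
  have hs4 : 0 < s ^ 4 := by positivity
  have ht4 : 0 < t ^ 4 := by positivity
  have ha4 : 0 < a ^ 4 := by positivity
  have hle : s ≤ t := by
    by_contra hc
    push Not at hc
    have := pow_lt_pow_left₀ hc ht.le (n := 4) (by norm_num)
    linarith
  have hw0 : 0 ≤ min 1 (s ^ 4)⁻¹ := le_min zero_le_one (by positivity)
  have hz0 : 0 ≤ a ^ p * min 1 (s ^ 4)⁻¹ := mul_nonneg (by positivity) hw0
  have c1 : 0 ≤ R * K2 := mul_nonneg hR hK2
  have c2 : 0 ≤ R ^ 2 := sq_nonneg R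
  have c3 : 0 ≤ K ^ 2 := sq_nonneg K
  have c4 : 0 ≤ K * K2 := mul_nonneg hK hK2
  have hmR : m ≤ R ^ 2 := hm1.trans (pow_le_pow_left₀ hY0 hYR 2)
  have hst0 : 0 < s * t := mul_pos hs ht
  have hx0 : 0 < a / (s * t) := div_pos ha hst0
  have hmt0 : 0 ≤ min 1 (t ^ 4) := le_min zero_le_one ht4.le
  by_cases hA : 1 / 2 ≤ s ^ 4
  · by_cases hA1 : a ≤ s * t
    · -- A1
      have hx : (a / (s * t)) ^ p ≤ 4 * (a ^ p * min 1 (s ^ 4)⁻¹) := by
        have hu2 : (s ^ 4)⁻¹ ≤ 2 := by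
          rw [inv_le_comm₀ hs4 two_pos]
          linarith
        have hu0 : 0 < (s ^ 4)⁻¹ := by positivity
        have hw : (s ^ 4)⁻¹ ≤ 2 * min 1 (s ^ 4)⁻¹ := by
          rcases le_total 1 (s ^ 4)⁻¹ with h | h
          · rw [min_eq_left h]; linarith
          · rw [min_eq_right h]; linarith
        have hs2 : 1 / 2 ≤ s ^ 2 := by
          by_contra hc
          push Not at hc
          have h1 : s ^ 4 = s ^ 2 * s ^ 2 := by ring
          have h2 : 0 < s ^ 2 := by positivity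
          nlinarith
        have hxs : a / (s * t) ≤ a / s ^ 2 := by
          refine div_le_div_of_nonneg_left ha.le (by positivity) ?_
          rw [pow_two]
          exact mul_le_mul_of_nonneg_left hle hs.le
        have h1 : (a / (s * t)) ^ p ≤ (a / s ^ 2) ^ p := pow_le_pow_left₀ hx0.le hxs p
        refine h1.trans ?_
        rcases hp with rfl | rfl
        · have h2 : (a / s ^ 2) ^ 2 = a ^ 2 * (s ^ 4)⁻¹ := by
            field_simp
          rw [h2]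
          have h3 := mul_le_mul_of_nonneg_left hw (sq_nonneg a)
          have h4 : 0 ≤ a ^ 2 * min 1 (s ^ 4)⁻¹ := hz0
          linarith
        · have h2 : (a / s ^ 2) ^ 3 = a ^ 3 * (s ^ 4)⁻¹ * (s ^ 2)⁻¹ := by
            field_simp
          rw [h2]
          have h5 : (s ^ 2)⁻¹ ≤ 2 := by
            rw [inv_le_comm₀ (by positivity) two_pos]
            linarith
          have h6 : 0 ≤ a ^ 3 * (s ^ 4)⁻¹ := by positivity
          have h7 := mul_le_mul_of_nonneg_left h5 h6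
          have h3 := mul_le_mul_of_nonneg_left hw (by positivity : (0 : ℝ) ≤ a ^ 3)
          linarith
      have he := he2 hA1
      have h1 : K2 * (a / (s * t)) ^ p * min 1 (t ^ 4) ≤ K2 * (4 * (a ^ p * min 1 (s ^ 4)⁻¹)) * 1 :=
        mul_le_mul (mul_le_mul_of_nonneg_left hx hK2) (min_le_left _ _) hmt0 (by positivity)
      refine tr3_fin (c := 8 * R * K2) hz0 (by linarith) ?_
      have he0 : e ≤ K2 * (4 * (a ^ p * min 1 (s ^ 4)⁻¹)) := by linarith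
      calc m ≤ 2 * Y * e := hm2
        _ ≤ 2 * Y * (K2 * (4 * (a ^ p * min 1 (s ^ 4)⁻¹))) :=
            mul_le_mul_of_nonneg_left he0 (by linarith)
        _ ≤ 2 * R * (K2 * (4 * (a ^ p * min 1 (s ^ 4)⁻¹))) :=
            mul_le_mul_of_nonneg_right (by linarith) (by positivity)
        _ = 8 * R * K2 * (a ^ p * min 1 (s ^ 4)⁻¹) := by ring
    · -- A2
      push Not at hA1
      have h1 : s ^ 4 * t ^ 4 < a ^ 4 := by
        rw [← mul_pow]
        exact pow_lt_pow_left₀ hA1 hst0.le (by norm_num)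
      have h2 : s ^ 4 < 1 := by
        by_contra hc
        push Not at hc
        have := mul_le_mul_of_nonneg_right hc ht4.le
        linarith
      have h3 : min 1 (s ^ 4)⁻¹ = 1 := min_eq_left ((one_le_inv₀ hs4).mpr h2.le)
      have h4 : 1 / 4 ≤ a ^ 4 := by
        have h5 : s ^ 4 ≤ t ^ 4 := by linarith
        have h6 : s ^ 4 * s ^ 4 ≤ s ^ 4 * t ^ 4 := mul_le_mul_of_nonneg_left h5 hs4.le
        nlinarith
      have h5 : 1 / 4 ≤ a ^ p := by
        rcases le_total 1 a with h | h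
        · have := one_le_pow₀ h (n := p)
          linarith
        · have : a ^ 4 ≤ a ^ p := pow_le_pow_of_le_one ha.le h (by omega)
          linarith
      refine tr3_fin (c := 4 * R ^ 2) hz0 (by linarith) ?_
      rw [h3, mul_one]
      nlinarith
  · -- B
    push Not at hA
    have h3 : min 1 (s ^ 4)⁻¹ = 1 := min_eq_left ((one_le_inv₀ hs4).mpr (by linarith))
    by_cases hB : 2 * s ^ 4 < t ^ 4
    · -- B1
      have h1 : t ^ 4 ≤ 2 * a ^ 4 := by linarith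
      rcases le_total 1 a with h | h
      · refine tr3_fin (c := R ^ 2) hz0 (by linarith) ?_
        rw [h3, mul_one]
        have := one_le_pow₀ h (n := p)
        nlinarith
      · refine tr3_fin (c := 2 * K ^ 2) hz0 (by linarith) ?_
        rw [h3, mul_one]
        have h4 : a ^ 4 ≤ a ^ p := pow_le_pow_of_le_one ha.le h (by omega)
        have h5 : Y ^ 2 ≤ (K * t ^ 2) ^ 2 := pow_le_pow_left₀ hY0 hYK 2
        have h6 : (K * t ^ 2) ^ 2 = K ^ 2 * t ^ 4 := by ring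
        have h7 : K ^ 2 * t ^ 4 ≤ K ^ 2 * (2 * a ^ p) :=
          mul_le_mul_of_nonneg_left (by linarith) c3
        linarith
    · -- B2
      push Not at hB
      have ht1 : t ≤ 1 := by
        by_contra hc
        push Not at hc
        have := one_lt_pow₀ hc (n := 4) (by norm_num)
        linarith
      -- the ratio
      obtain ⟨ρ, hρ⟩ : ∃ ρ, ρ = t / s := ⟨_, rfl⟩
      have hρ1 : 1 ≤ ρ := by
        rw [hρ, le_div_iff₀ hs]; linarith
      have hρ4 : ρ ^ 4 ≤ 2 := by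
        rw [hρ, div_pow, div_le_iff₀ hs4]
        exact hB
      have hρ3 : ρ ^ 3 ≤ 2 := (pow_le_pow_right₀ hρ1 (by norm_num)).trans hρ4
      have hρ2 : ρ ^ 2 ≤ 2 := (pow_le_pow_right₀ hρ1 (by norm_num)).trans hρ4
      have htρ : t = ρ * s := by rw [hρ]; field_simp
      have hmt : min 1 (t ^ 4) ≤ t ^ 4 := min_le_right _ _
      refine tr3_fin (c := 4 * K * K2) hz0 (by linarith) ?_
      rw [h3, mul_one]
      have hkey : ∀ z : ℝ, 0 ≤ z → e ≤ K2 * z * min 1 (t ^ 4) → t ^ 6 * z ≤ 2 * a ^ p →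
          m ≤ 4 * K * K2 * a ^ p := by
        intro z hz0' hz hz2
        have h4 : e ≤ K2 * z * t ^ 4 := hz.trans (mul_le_mul_of_nonneg_left hmt (by positivity))
        calc m ≤ 2 * Y * e := hm2
          _ ≤ 2 * Y * (K2 * z * t ^ 4) := mul_le_mul_of_nonneg_left h4 (by linarith)
          _ ≤ 2 * (K * t ^ 2) * (K2 * z * t ^ 4) :=
              mul_le_mul_of_nonneg_right (by linarith) (by positivity)
          _ = 2 * (K * K2) * (t ^ 6 * z) := by ring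
          _ ≤ 2 * (K * K2) * (2 * a ^ p) := mul_le_mul_of_nonneg_left hz2 (by linarith)
          _ = 4 * K * K2 * a ^ p := by ring
      have hx2 : t ^ 6 * (a / (s * t)) ^ 2 = t ^ 2 * a ^ 2 * ρ ^ 2 := by
        rw [hρ]; field_simp
      have hx3 : t ^ 6 * (a / (s * t)) ^ 3 = a ^ 3 * ρ ^ 3 := by
        rw [hρ]; field_simp
      rcases hp with rfl | rfl
      · refine hkey _ (by positivity) he1 ?_
        rw [hx2]
        have h4 : t ^ 2 ≤ 1 := pow_le_one₀ ht.le ht1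
        have h5 : t ^ 2 * a ^ 2 ≤ 1 * a ^ 2 := mul_le_mul_of_nonneg_right h4 (sq_nonneg a)
        have h6 : 0 ≤ t ^ 2 * a ^ 2 := by positivity
        have h7 := mul_le_mul_of_nonneg_left hρ2 h6
        linarith
      · by_cases hst1 : a ≤ s * t
        · refine hkey _ (by positivity) (he2 hst1) ?_
          rw [hx3]
          have h6 : 0 ≤ a ^ 3 := by positivity
          have h7 := mul_le_mul_of_nonneg_left hρ3 h6
          linarith
        · push Not at hst1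
          refine hkey _ (by positivity) he1 ?_
          rw [hx2]
          have h4 : t ^ 2 ≤ ρ * a := by
            have h5 : t ^ 2 = ρ * (s * t) := by rw [hρ]; field_simp
            rw [h5]
            exact mul_le_mul_of_nonneg_left hst1.le (by linarith)
          have h6 : t ^ 2 * a ^ 2 * ρ ^ 2 ≤ (ρ * a) * a ^ 2 * ρ ^ 2 := by gcongr
          have h7 : (ρ * a) * a ^ 2 * ρ ^ 2 = a ^ 3 * ρ ^ 3 := by ring
          have h8 := mul_le_mul_of_nonneg_left hρ3 (by positivity : (0 : ℝ) ≤ a ^ 3)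
          linarith

theorem tr3 : Tr3Stmt := by
  intro R K K2 γ y hR hK hK2 hγ hmono hy hyy
  have hC : 0 ≤ 8 * R * K2 + 5 * R ^ 2 + 2 * K ^ 2 + 4 * K * K2 := by positivity
  refine ⟨8 * R * K2 + 5 * R ^ 2 + 2 * K ^ 2 + 4 * K * K2, hC, ?_⟩
  intro S S' hS hSS'
  have hS' : 0 < S' := lt_of_lt_of_le hS hSS'
  have hRHS : 0 ≤ (8 * R * K2 + 5 * R ^ 2 + 2 * K ^ 2 + 4 * K * K2) * (S' - S) ^ γ * min 1 S⁻¹ := by
    refine mul_nonneg (mul_nonneg hC (Real.rpow_nonneg (by linarith) _)) ?_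
    exact le_min zero_le_one (by positivity)
  rcases hSS'.eq_or_lt with heq | hlt
  · subst heq
    exact le_trans (le_of_eq (sub_self _)) hRHS
  obtain ⟨s, hs⟩ : ∃ s, s = Real.sqrt (Real.sqrt S) := ⟨_, rfl⟩
  obtain ⟨t, ht⟩ : ∃ t, t = Real.sqrt (Real.sqrt S') := ⟨_, rfl⟩
  obtain ⟨a, ha⟩ : ∃ a, a = Real.sqrt (Real.sqrt (S' - S)) := ⟨_, rfl⟩
  have q : ∀ x : ℝ, 0 < x → 0 < Real.sqrt (Real.sqrt x) ∧ Real.sqrt (Real.sqrt x) ^ 2 = Real.sqrt x ∧
      Real.sqrt (Real.sqrt x) ^ 4 = x := by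
    intro x hx
    have h1 : 0 < Real.sqrt x := Real.sqrt_pos.mpr hx
    have h2 : Real.sqrt (Real.sqrt x) ^ 2 = Real.sqrt x := Real.sq_sqrt h1.le
    refine ⟨Real.sqrt_pos.mpr h1, h2, ?_⟩
    have h3 : Real.sqrt (Real.sqrt x) ^ 4 = (Real.sqrt (Real.sqrt x) ^ 2) ^ 2 := by ring
    rw [h3, h2, Real.sq_sqrt hx.le]
  obtain ⟨s0, s2, s4⟩ := q S hS
  obtain ⟨t0, t2, t4⟩ := q S' hS'
  obtain ⟨a0, a2, a4⟩ := q (S' - S) (by linarith)
  rw [← hs] at s0 s2 s4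
  rw [← ht] at t0 t2 t4
  rw [← ha] at a0 a2 a4
  have hst : t ^ 4 = s ^ 4 + a ^ 4 := by rw [s4, t4, a4]; ring
  have hY := hy (Real.sqrt S') (Real.sqrt_pos.mpr hS')
  have hY1 := hy (Real.sqrt S) (Real.sqrt_pos.mpr hS)
  have hmon : y (Real.sqrt S) ≤ y (Real.sqrt S') :=
    hmono (Real.sqrt_pos.mpr hS) (Real.sqrt_pos.mpr hS') (Real.sqrt_le_sqrt hSS')
  -- the hypothesis at `Q = 1/S'`
  have hQ : (0 : ℝ) < (t ^ 4)⁻¹ := by positivity
  have hδ : (0 : ℝ) < (a / (s * t)) ^ 4 := by positivity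
  have hQδ : (t ^ 4)⁻¹ + (a / (s * t)) ^ 4 = (s ^ 4)⁻¹ := by
    rw [div_pow, mul_pow]
    have h1 : a ^ 4 = t ^ 4 - s ^ 4 := by linarith
    rw [h1]
    field_simp
    ring
  have e1 : (Real.sqrt (t ^ 4)⁻¹)⁻¹ = Real.sqrt S' := by
    rw [Real.sqrt_inv, inv_inv, t4]
  have e2 : (Real.sqrt (s ^ 4)⁻¹)⁻¹ = Real.sqrt S := by
    rw [Real.sqrt_inv, inv_inv, s4]
  obtain ⟨H1, H2⟩ := hyy (t ^ 4)⁻¹ ((a / (s * t)) ^ 4) hQ hδ
  rw [hQδ, e1, e2, inv_inv] at H1 H2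
  have hx0 : 0 ≤ a / (s * t) := by positivity
  rw [tr3_q12 hx0] at H1
  have hm1 : R ^ 2 - y (Real.sqrt S) ^ 2 - (R ^ 2 - y (Real.sqrt S') ^ 2) ≤
      y (Real.sqrt S') ^ 2 := by
    have := sq_nonneg (y (Real.sqrt S))
    linarith
  have hm2 : R ^ 2 - y (Real.sqrt S) ^ 2 - (R ^ 2 - y (Real.sqrt S') ^ 2) ≤
      2 * y (Real.sqrt S') * (y (Real.sqrt S') - y (Real.sqrt S)) := by
    nlinarith [sq_nonneg (y (Real.sqrt S') - y (Real.sqrt S))]
  have hYK : y (Real.sqrt S') ≤ K * t ^ 2 := by rw [t2]; exact hY.2.2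
  have hlt1 : a ≤ s * t → (a / (s * t)) ^ 4 ≤ 1 := by
    intro h
    refine pow_le_one₀ hx0 ?_
    rw [div_le_one (by positivity)]
    exact h
  have hgoal : ∀ p : ℕ, (p = 2 ∨ p = 3) → (S' - S) ^ γ = a ^ p →
      ((a / (s * t)) ^ 4) ^ γ = (a / (s * t)) ^ p →
      R ^ 2 - y (Real.sqrt S) ^ 2 - (R ^ 2 - y (Real.sqrt S') ^ 2) ≤
      (8 * R * K2 + 5 * R ^ 2 + 2 * K ^ 2 + 4 * K * K2) * (S' - S) ^ γ * min 1 S⁻¹ := by
    intro p hp hp1 hp2
    rw [hp1, mul_assoc, ← s4]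
    refine tr3_core hp hR hK hK2 s0 t0 a0 hst hY.1 hY.2.1 hYK ?_ ?_ H1 ?_
    · rw [s4]; exact hm1
    · rw [s4]; exact hm2
    · intro h
      rw [← hp2]
      exact H2 (hlt1 h)
  rcases hγ with rfl | rfl
  · refine hgoal 2 (Or.inl rfl) ?_ (tr3_q12 hx0)
    rw [← a4]; exact tr3_q12 a0.le
  · refine hgoal 3 (Or.inr rfl) ?_ (tr3_q34 hx0)
    rw [← a4]; exact tr3_q34 a0.le

end Pool.Agent.REV.H50
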