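import Pool.Agent.REV.StmtsP3

open Set

namespace Pool.Agent.REV.H50

open Pool.Agent.REV

theorem hst_prod {C b b' a a' δb δa Ba Bb : ℝ} (hC : 0 ≤ C) (hb : |b - b'| ≤ δb)
    (ha : |a - a'| ≤ δa) (hBa : |a| ≤ Ba) (hBb : |b'| ≤ Bb) :
    |C * (b * a) - C * (b' * a')| ≤ C * (δb * Ba + Bb * δa) := by
  have h1 : C * (b * a) - C * (b' * a') = C * ((b - b') * a + b' * (a - a')) := by ring
  rw [h1, abs_mul, abs_of_nonneg hC]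
  refine mul_le_mul_of_nonneg_left ?_ hC
  refine (abs_add_le _ _).trans ?_
  rw [abs_mul, abs_mul]
  exact add_le_add (mul_le_mul hb hBa (abs_nonneg _) ((abs_nonneg _).trans hb))
    (mul_le_mul hBb ha (abs_nonneg _) ((abs_nonneg _).trans hBb))

theorem hst (hrb : HrbStmt) (hra : HraStmt) (hsm : HsmStmt) : HstStmt := by
  intro α γ C L f hex hfix hC hL hHol
  have hγ0 : 0 < γ := by
    rcases hex with ⟨-, h⟩ | ⟨-, h⟩ | ⟨-, h⟩ <;> rw [h] <;> norm_num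
  have hγ1 : γ ≤ 1 := by
    rcases hex with ⟨-, h⟩ | ⟨-, h⟩ | ⟨-, h⟩ <;> rw [h] <;> norm_num
  have hα0 : 0 ≤ α := by
    rcases hex with ⟨h, -⟩ | ⟨h, -⟩ | ⟨h, -⟩ <;> rw [h] <;> norm_num
  -- bound of `f`
  have hle1 : ∀ x ∈ Icc (0 : ℝ) 1, ∀ z ∈ Icc (0 : ℝ) 1, |x ^ 2 - z ^ 2| ≤ 1 := by
    intro x hx z hz
    have h1 := pow_le_one₀ hx.1 hx.2 (n := 2)
    have h2 := pow_le_one₀ hz.1 hz.2 (n := 2)
    rw [abs_le]
    constructor <;> nlinarith [sq_nonneg x, sq_nonneg z]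
  have h0m : (0 : ℝ) ∈ Icc (0 : ℝ) 1 := ⟨le_rfl, zero_le_one⟩
  have hp1 : ∀ (x : ℝ), x ∈ Icc (0 : ℝ) 1 → ∀ z ∈ Icc (0 : ℝ) 1, |x ^ 2 - z ^ 2| ^ α ≤ 1 :=
    fun x hx z hz => Real.rpow_le_one (abs_nonneg _) (hle1 x hx z hz) hα0
  have hM : ∀ t ∈ Icc (0 : ℝ) 1, |f t| ≤ |f 0| + L := by
    intro t ht
    have h1 := hHol t ht 0 h0m
    have h2 := mul_le_mul_of_nonneg_left (hp1 t ht 0 h0m) hL
    have h3 : |f t| ≤ |f t - f 0| + |f 0| := by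
      have := abs_add_le (f t - f 0) (f 0)
      rwa [sub_add_cancel] at this
    linarith
  -- bounds of `RA`, `RB`
  have hbd := hsm α L 1 f hα0 hL zero_le_one le_rfl hfix.cont hHol
  have hRA : ∀ c ∈ Icc (0 : ℝ) 1, |RA 3 f c| ≤ |RA 3 f 0| + 2 * L := by
    intro c hc
    have h1 := (hbd c hc 0 h0m).1
    have h2 := mul_le_mul_of_nonneg_left (hp1 c hc 0 h0m) (by linarith : 0 ≤ 2 * L)
    have h3 := abs_add_le (RA 3 f c - RA 3 f 0) (RA 3 f 0)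
    rw [sub_add_cancel] at h3
    linarith
  have hRB : ∀ c ∈ Icc (0 : ℝ) 1, |RB 3 f c| ≤ |RB 3 f 0| + 2 * L := by
    intro c hc
    have h1 := (hbd c hc 0 h0m).2
    have h2 := mul_le_mul_of_nonneg_left (hp1 c hc 0 h0m) (by linarith : 0 ≤ 2 * L)
    have h3 := abs_add_le (RB 3 f c - RB 3 f 0) (RB 3 f 0)
    rw [sub_add_cancel] at h3
    linarith
  obtain ⟨Ba, hBa⟩ : ∃ Ba, Ba = |RA 3 f 0| + 2 * L := ⟨_, rfl⟩
  obtain ⟨Bb, hBb⟩ : ∃ Bb, Bb = |RB 3 f 0| + 2 * L := ⟨_, rfl⟩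
  rw [← hBa] at hRA
  rw [← hBb] at hRB
  have hBa0 : 0 ≤ Ba := by rw [hBa]; positivity
  have hBb0 : 0 ≤ Bb := by rw [hBb]; positivity
  obtain ⟨K1, hK1, hK1'⟩ := hrb α γ (|f 0| + L) L f hex hfix.cont hL hM hHol
  obtain ⟨K2, hK2, hK2'⟩ := hra (|f 0| + L) f hfix.cont hM
  obtain ⟨a, ha⟩ : ∃ a, a = Real.sqrt (1 / 2) := ⟨_, rfl⟩
  have ha0 : 0 ≤ a := by rw [ha]; exact Real.sqrt_nonneg _
  have ha2 : a ^ 2 = 1 / 2 := by rw [ha]; exact Real.sq_sqrt (by norm_num)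
  have ha1 : a ≤ 1 := by nlinarith
  -- the square roots
  have hc : ∀ t ∈ Icc (0 : ℝ) 1, Real.sqrt (1 - t ^ 2) ∈ Icc (0 : ℝ) 1 ∧
      Real.sqrt (1 - t ^ 2) ^ 2 = 1 - t ^ 2 := by
    intro t ht
    have h1 := pow_le_one₀ ht.1 ht.2 (n := 2)
    refine ⟨⟨Real.sqrt_nonneg _, ?_⟩, Real.sq_sqrt (by linarith)⟩
    rw [Real.sqrt_le_one]
    nlinarith [sq_nonneg t]
  have hdiff : ∀ x ∈ Icc (0 : ℝ) 1, ∀ z ∈ Icc (0 : ℝ) 1,
      |Real.sqrt (1 - x ^ 2) ^ 2 - Real.sqrt (1 - z ^ 2) ^ 2| = |x ^ 2 - z ^ 2| := by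
    intro x hx z hz
    rw [(hc x hx).2, (hc z hz).2, abs_sub_comm]
    congr 1
    ring
  have heq : ∀ t ∈ Icc (0 : ℝ) 1,
      f t = C * (RB 3 f (Real.sqrt (1 - t ^ 2)) * RA 3 f (Real.sqrt (1 - t ^ 2))) := by
    intro t ht
    have h := hfix.eq t ht
    rw [show 3 - 2 = 1 from rfl, pow_one] at h
    exact h
  -- first part
  obtain ⟨L1, hL1⟩ : ∃ L1, L1 = C * (K1 * Ba + Bb * K2) := ⟨_, rfl⟩
  have hL10 : 0 ≤ L1 := by rw [hL1]; positivity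
  have part1 : ∀ x ∈ Icc (0 : ℝ) a, ∀ z ∈ Icc (0 : ℝ) a, |f x - f z| ≤ L1 * |x ^ 2 - z ^ 2| ^ γ := by
    intro x hx z hz
    have hx1 : x ∈ Icc (0 : ℝ) 1 := ⟨hx.1, hx.2.trans ha1⟩
    have hz1 : z ∈ Icc (0 : ℝ) 1 := ⟨hz.1, hz.2.trans ha1⟩
    have hx2 : x ^ 2 ≤ 1 / 2 := by rw [← ha2]; exact pow_le_pow_left₀ hx.1 hx.2 2
    have hz2 : z ^ 2 ≤ 1 / 2 := by rw [← ha2]; exact pow_le_pow_left₀ hz.1 hz.2 2
    obtain ⟨cx, cx2⟩ := hc x hx1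
    obtain ⟨cz, cz2⟩ := hc z hz1
    have h1 := hK1' _ _ cx.1 cz.1 (by rw [cx2]; linarith) (by rw [cz2]; linarith) cx.2 cz.2
    have h2 := hK2' _ _ cx.1 cz.1 (by rw [cx2]; linarith) (by rw [cz2]; linarith) cx.2 cz.2
    rw [hdiff x hx1 z hz1] at h1 h2
    have h3 : |x ^ 2 - z ^ 2| ≤ |x ^ 2 - z ^ 2| ^ γ := by
      rcases (abs_nonneg (x ^ 2 - z ^ 2)).eq_or_lt with h | h
      · rw [← h, Real.zero_rpow hγ0.ne']
      · have := Real.rpow_le_rpow_of_exponent_ge h (hle1 x hx1 z hz1) hγ1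
        rwa [Real.rpow_one] at this
    have h4 := h2.trans (mul_le_mul_of_nonneg_left h3 hK2)
    rw [heq x hx1, heq z hz1]
    refine (hst_prod hC.le h1 h4 (hRA _ cx) (hRB _ cz)).trans (le_of_eq ?_)
    rw [hL1]
    ring
  -- second part
  obtain ⟨L2, hL2⟩ : ∃ L2, L2 = C * (2 * L1 * Ba + Bb * (2 * L1)) := ⟨_, rfl⟩
  have hL20 : 0 ≤ L2 := by rw [hL2]; positivity
  have part2 : ∀ x ∈ Icc a 1, ∀ z ∈ Icc a 1, |f x - f z| ≤ L2 * |x ^ 2 - z ^ 2| ^ γ := by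
    intro x hx z hz
    have hx1 : x ∈ Icc (0 : ℝ) 1 := ⟨ha0.trans hx.1, hx.2⟩
    have hz1 : z ∈ Icc (0 : ℝ) 1 := ⟨ha0.trans hz.1, hz.2⟩
    have hx2 : 1 / 2 ≤ x ^ 2 := by rw [← ha2]; exact pow_le_pow_left₀ ha0 hx.1 2
    have hz2 : 1 / 2 ≤ z ^ 2 := by rw [← ha2]; exact pow_le_pow_left₀ ha0 hz.1 2
    obtain ⟨cx, cx2⟩ := hc x hx1
    obtain ⟨cz, cz2⟩ := hc z hz1
    have hca : ∀ c : ℝ, 0 ≤ c → c ^ 2 ≤ 1 / 2 → c ∈ Icc (0 : ℝ) a := by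
      intro c hc0 hc2
      refine ⟨hc0, ?_⟩
      rw [← ha2] at hc2
      exact (pow_le_pow_iff_left₀ hc0 ha0 two_ne_zero).mp hc2
    have h12 := hsm γ L1 a f hγ0.le hL10 ha0 ha1 hfix.cont part1 _
      (hca _ cx.1 (by rw [cx2]; linarith)) _ (hca _ cz.1 (by rw [cz2]; linarith))
    rw [hdiff x hx1 z hz1] at h12
    rw [heq x hx1, heq z hz1]
    refine (hst_prod hC.le h12.2 h12.1 (hRA _ cx) (hRB _ cz)).trans (le_of_eq ?_)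
    rw [hL2]
    ring
  -- mixed part
  have part3 : ∀ x ∈ Icc (0 : ℝ) a, ∀ z ∈ Icc a 1, |f x - f z| ≤ (L1 + L2) * |x ^ 2 - z ^ 2| ^ γ := by
    intro x hx z hz
    have h1 := part1 x hx a ⟨ha0, le_rfl⟩
    have h2 := part2 a ⟨le_rfl, ha1⟩ z hz
    have hxa : x ^ 2 ≤ a ^ 2 := pow_le_pow_left₀ hx.1 hx.2 2
    have haz : a ^ 2 ≤ z ^ 2 := pow_le_pow_left₀ ha0 hz.1 2
    have e1 : |x ^ 2 - a ^ 2| ≤ |x ^ 2 - z ^ 2| := by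
      rw [abs_of_nonpos (by linarith), abs_of_nonpos (by linarith)]
      linarith
    have e2 : |a ^ 2 - z ^ 2| ≤ |x ^ 2 - z ^ 2| := by
      rw [abs_of_nonpos (by linarith), abs_of_nonpos (by linarith)]
      linarith
    have g1 := mul_le_mul_of_nonneg_left (Real.rpow_le_rpow (abs_nonneg _) e1 hγ0.le) hL10
    have g2 := mul_le_mul_of_nonneg_left (Real.rpow_le_rpow (abs_nonneg _) e2 hγ0.le) hL20
    have h3 : |f x - f z| ≤ |f x - f a| + |f a - f z| := abs_sub_le _ _ _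
    rw [add_mul]
    linarith
  refine ⟨L1 + L2, by positivity, ?_⟩
  intro x hx z hz
  have hpow : 0 ≤ |x ^ 2 - z ^ 2| ^ γ := Real.rpow_nonneg (abs_nonneg _) _
  have w1 : 0 ≤ L1 * |x ^ 2 - z ^ 2| ^ γ := mul_nonneg hL10 hpow
  have w2 : 0 ≤ L2 * |x ^ 2 - z ^ 2| ^ γ := mul_nonneg hL20 hpow
  rcases le_total x a with hxa | hxa
  · rcases le_total z a with hza | hza
    · have := part1 x ⟨hx.1, hxa⟩ z ⟨hz.1, hza⟩
      rw [add_mul]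
      linarith
    · exact part3 x ⟨hx.1, hxa⟩ z ⟨hza, hz.2⟩
  · rcases le_total z a with hza | hza
    · have := part3 z ⟨hz.1, hza⟩ x ⟨hxa, hx.2⟩
      rwa [abs_sub_comm (f z), abs_sub_comm (z ^ 2)] at this
    · have := part2 x ⟨hxa, hx.2⟩ z ⟨hza, hz.2⟩
      rw [add_mul]
      linarith

end Pool.Agent.REV.H50
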