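import Pool.Agent.REV.StmtsU

open MeasureTheory Set Filter Topology

namespace Pool.Agent.REV.H50

open Pool.Agent.REV

theorem rbc (hcra : CraStmt) : RbcStmt := by
  intro n f c hn hf hC hc
  obtain ⟨C, hCf⟩ := hC
  have hC0 : 0 ≤ C := le_trans (abs_nonneg _) (hCf 0)
  have hn4 : (4 : ℝ) ≤ n := by exact_mod_cast hn
  have he : 0 ≤ ((n : ℝ) - 4) / 2 := by linarith
  set F : ℝ → ℝ → ℝ := fun u s =>
    (if s < u then s ^ 2 * (1 - s ^ 2 / u ^ 2) ^ (((n : ℝ) - 4) / 2) else 0) * f s with hF
  have hnear : ∀ᶠ u in 𝓝 c, u ∈ Ioo (c / 2) (2 * c) :=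
    Ioo_mem_nhds (by linarith) (by linarith)
  have hmeas : ∀ u : ℝ, Measurable (F u) := by
    intro u
    refine Measurable.mul ?_ hf
    refine Measurable.ite (measurableSet_lt measurable_id measurable_const) ?_ measurable_const
    refine Measurable.mul (measurable_id.pow_const 2) ?_
    refine Measurable.pow_const ?_ _
    exact measurable_const.sub ((measurable_id.pow_const 2).div_const _)
  have hcont : ContinuousAt (fun u => ∫ s in (0 : ℝ)..(2 * c), F u s) c := by
    refine intervalIntegral.continuousAt_of_dominated_interval (bound := fun _ => (2 * c) ^ 2 * C)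
      ?_ ?_ ?_ ?_
    · exact Eventually.of_forall fun u => (hmeas u).aestronglyMeasurable
    · filter_upwards [hnear] with u hu
      refine Eventually.of_forall fun s hs => ?_
      have hs2 : s ∈ Ioc 0 (2 * c) := by
        rwa [uIoc_of_le (by linarith)] at hs
      have hu0 : 0 < u := by have := hu.1; linarith
      rw [hF]
      simp only [Real.norm_eq_abs, abs_mul]
      refine mul_le_mul ?_ (hCf s) (abs_nonneg _) (by positivity)
      split_ifs with hsu
      · have h1 : s ^ 2 / u ^ 2 ≤ 1 := by
          rw [div_le_one (by positivity)]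
          exact pow_le_pow_left₀ hs2.1.le hsu.le 2
        have h0 : 0 ≤ s ^ 2 / u ^ 2 := by positivity
        have hb0 : 0 ≤ 1 - s ^ 2 / u ^ 2 := by linarith
        have hb1 : 1 - s ^ 2 / u ^ 2 ≤ 1 := by linarith
        rw [abs_mul, abs_of_nonneg (sq_nonneg s), abs_of_nonneg (Real.rpow_nonneg hb0 _)]
        calc s ^ 2 * (1 - s ^ 2 / u ^ 2) ^ (((n : ℝ) - 4) / 2)
            ≤ s ^ 2 * 1 := by
              refine mul_le_mul_of_nonneg_left ?_ (sq_nonneg s)
              exact Real.rpow_le_one hb0 hb1 he
          _ ≤ (2 * c) ^ 2 := by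
              rw [mul_one]
              exact pow_le_pow_left₀ hs2.1.le hs2.2 2
      · rw [abs_zero]; positivity
    · exact intervalIntegrable_const
    · have hne : ∀ᵐ s : ℝ, s ≠ c := by
        have : (volume : Measure ℝ) {c} = 0 := Real.volume_singleton
        exact compl_mem_ae_iff.mpr this
      filter_upwards [hne] with s hs hs'
      rcases lt_or_gt_of_ne hs with hlt | hgt
      · have hev : (fun u => F u s) =ᶠ[𝓝 c]
            fun u => s ^ 2 * (1 - s ^ 2 / u ^ 2) ^ (((n : ℝ) - 4) / 2) * f s := by
          filter_upwards [lt_mem_nhds hlt] with u hu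
          simp only [hF]
          rw [if_pos hu]
        refine ContinuousAt.congr ?_ hev.symm
        refine ContinuousAt.mul (ContinuousAt.mul continuousAt_const ?_) continuousAt_const
        refine ContinuousAt.rpow_const ?_ (Or.inr he)
        exact continuousAt_const.sub (continuousAt_const.div (continuousAt_id.pow 2)
          (pow_ne_zero 2 hc.ne'))
      · have hev : (fun u => F u s) =ᶠ[𝓝 c] fun _ => 0 := by
          filter_upwards [gt_mem_nhds hgt] with u hu
          simp only [hF]
          rw [if_neg (not_lt.mpr hu.le), zero_mul]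
        exact ContinuousAt.congr continuousAt_const hev.symm
  have hRB : (fun u => (∫ s in (0 : ℝ)..(2 * c), F u s) / u ^ 3) =ᶠ[𝓝 c] RB n f := by
    filter_upwards [hnear] with u hu
    have hu0 : 0 < u := by have := hu.1; linarith
    have h := (hcra n f u (2 * c) hn hf ⟨C, hCf⟩ hu0 hu.2.le).2
    rw [div_eq_iff (by positivity), mul_comm (RB n f u)]
    exact h.symm
  refine ContinuousAt.congr ?_ hRB
  exact hcont.div (continuousAt_id.pow 3) (pow_ne_zero 3 hc.ne')

end Pool.Agent.REV.H50
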