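import Pool.Agent.REV.StmtsG
import Pool.Agent.BPH.PpmB
import Pool.Agent.BPH.Gwb
import Pool.Agent.BPH.Gwa
import Pool.Agent.BPH.Sph
import Pool.Agent.BPH.Kit

set_option autoImplicit false

/-!
# Squad REV (MP_bbfd73_gt), row QME: the density of the step is measurable and bounded
-/

open MeasureTheory Module Set Filter
open scoped RealInnerProductSpace Pointwise Topology ENNReal

namespace Pool.Agent.REV.H50

open Pool.Agent.BPH Pool.Agent.Helper55_PB Pool.Agent.Helper28_PB Pool.Agent.REV

/-- QME. -/
theorem qme : QmeStmt := by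
  intro E _ _ _ _ _ _ i f hf
  have hgw : GWB := gwb gwa
  have hP : IsProbabilityMeasure (sphP E i) := SPH.probP sph_facts i
  -- the integrand
  set Gf : E → (Fin i → E) → ℝ := fun u x =>
    gw (fun l => nrm (po u (x l))) ^ 2 * ∏ l, f (nrm (po u (x l))) with hGf
  have hQ : ∀ u, QQ i f u = ∫ x, Gf u x ∂sphP E i := fun u => rfl
  have hm : Measurable (fun q : E × (Fin i → E) => Gf q.1 q.2) := by
    have h1 : ∀ l : Fin i, Measurable (fun q : E × (Fin i → E) => nrm (po q.1 (q.2 l))) := by
      intro l
      exact measurable_nrm.comp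
        (measurable_po' measurable_fst ((measurable_pi_apply l).comp measurable_snd))
    have h2 : Measurable (fun q : E × (Fin i → E) => (fun l => nrm (po q.1 (q.2 l)))) :=
      measurable_pi_lambda _ h1
    have h3 : Measurable (fun v : Fin i → E => gw v) := hgw.cont.measurable
    refine ((h3.comp h2).pow_const 2).mul ?_
    exact Finset.measurable_prod _ fun l _ => hf.meas.comp (h1 l)
  have h0 : ∀ u x, 0 ≤ Gf u x := fun u x =>
    mul_nonneg (sq_nonneg _) (Finset.prod_nonneg fun l _ => hf.nonneg _)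
  have hg0 : ∀ v : Fin i → E, 0 ≤ gw v := fun v => Real.sqrt_nonneg _
  have hg1 : ∀ u (x : Fin i → E), gw (fun l => nrm (po u (x l))) ^ 2 ≤ 1 := by
    intro u x
    have h1 : gw (fun l => nrm (po u (x l))) ≤ 1 := by
      refine (hgw.le _).trans ?_
      exact Finset.prod_le_one (fun l _ => norm_nonneg _) fun l _ => norm_nrm_le _
    exact pow_le_one₀ (hg0 _) h1
  have hle : ∀ C : ℝ, 0 ≤ C → (∀ x, f x ≤ C) → ∀ u x, Gf u x ≤ C ^ i := by
    intro C hC0 hC u x
    have h1 : ∏ l : Fin i, f (nrm (po u (x l))) ≤ C ^ i := by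
      refine (Finset.prod_le_prod (fun l _ => hf.nonneg _) fun l _ => hC _).trans ?_
      rw [Finset.prod_const, Finset.card_univ, Fintype.card_fin]
    calc Gf u x ≤ 1 * ∏ l : Fin i, f (nrm (po u (x l))) :=
          mul_le_mul_of_nonneg_right (hg1 u x) (Finset.prod_nonneg fun l _ => hf.nonneg _)
      _ ≤ C ^ i := by rw [one_mul]; exact h1
  clear_value Gf
  have hQf : QQ i f = fun u => ∫ x, Gf u x ∂sphP E i := funext hQ
  have hmu : ∀ u, Measurable (Gf u) := fun u => hm.comp (measurable_const.prodMk measurable_id)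
  refine ⟨?_, fun u => ?_, fun C hC0 hC u => ?_⟩
  · rw [hQf]
    exact (hm.stronglyMeasurable.integral_prod_right' (ν := sphP E i)).measurable
  · rw [hQ]
    exact integral_nonneg fun x => h0 u x
  · rw [hQ]
    have hint : Integrable (Gf u) (sphP E i) := integrable_bdd (hmu u) (C := C ^ i) (by
      filter_upwards with x
      rw [abs_of_nonneg (h0 u x)]
      exact hle C hC0 hC u x)
    calc ∫ x, Gf u x ∂sphP E i ≤ ∫ _x, C ^ i ∂sphP E i :=
          integral_mono hint (integrable_const _) (hle C hC0 hC u)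
      _ = C ^ i := by simp

end Pool.Agent.REV.H50
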